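import Pool.Agent.H.MP_233b81_lc.Dil

namespace Pool.Agent.H.MP_233b81_lc
open Function Set Classical

variable {α : Type} [PartialOrder α] {k : ℕ}

def Col (k : ℕ) (α : Type) [PartialOrder α] : Set (α → Fin k) := {f | ∀ x y, x < y → f x ≠ f y}

def Lw (x : α) (s : Finset α) : Prop := IsChain (· ≤ ·) (s : Set α) ∧ ∀ y ∈ s, y < x

noncomputable def lo (x : α) : ℕ := sSup {n | ∃ s, Lw x s ∧ s.card = n}

theorem Col.inj {f : α → Fin k} (hf : f ∈ Col k α) {s : Set α} (h : IsChain (· ≤ ·) s) : InjOn f s :=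
  fun x hx y hy e => by_contra fun n => (h hx hy n).elim (fun l => hf x y (l.lt_of_ne n) e)
    fun l => hf y x (l.lt_of_ne (Ne.symm n)) e.symm

theorem Col.card {f : α → Fin k} (hf : f ∈ Col k α) {s : Finset α} (h : IsChain (· ≤ ·) (s : Set α)) : s.card ≤ k := by
  simpa [Finset.card_image_of_injOn (Col.inj hf h)] using (s.image f).card_le_univ

theorem lo_spec {f : α → Fin k} (hf : f ∈ Col k α) (x : α) :
    (∃ s, Lw x s ∧ s.card = lo x) ∧ ∀ s, Lw x s → s.card ≤ lo x := by
  have b : BddAbove {n | ∃ s, Lw x s ∧ s.card = n} := ⟨k, by rintro _ ⟨s, h, rfl⟩; exact Col.card hf h.1⟩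
  exact ⟨Nat.sSup_mem (s := {n | ∃ s, Lw x s ∧ s.card = n}) ⟨0, ∅, ⟨by simp, by simp⟩, rfl⟩ b,
    fun s h => le_csSup b ⟨s, h, rfl⟩⟩

theorem Lw.ins {x y : α} {s} (h : Lw x s) (l : x < y) : Lw y (insert x s) ∧ (insert x s).card = s.card + 1 :=
  ⟨⟨by simpa using h.1.insert fun z hz _ => .inr (h.2 z hz).le, by
    simpa [l] using fun z hz => (h.2 z hz).trans l⟩, Finset.card_insert_of_notMem fun e => (h.2 x e).false⟩

theorem lo_lt {f : α → Fin k} (hf : f ∈ Col k α) {x y : α} (l : x < y) : lo x < lo y := by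
  obtain ⟨s, h1, h2⟩ := (lo_spec hf x).1
  have := (lo_spec hf y).2 _ (h1.ins l).1
  rw [(h1.ins l).2] at this; omega

noncomputable def hi (x : α) : ℕ := lo (α := αᵒᵈ) x

theorem Col.dual {f : α → Fin k} (hf : f ∈ Col k α) : f ∈ Col k αᵒᵈ := fun x y l => (hf y x l).symm

theorem glue {f : α → Fin k} (hf : f ∈ Col k α) {x : α} {s t : Finset α} (hs : Lw x s) (ht : Lw (α := αᵒᵈ) x t) :
    s.card + t.card + 1 ≤ k ∧ (s.card + t.card + 1 = k → s.image f = ((insert x t).image f)ᶜ) := by
  have t1 : ∀ y ∈ insert x t, x ≤ y := fun y hy =>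
    (Finset.mem_insert.1 hy).elim Eq.ge fun hy => (ht.2 y hy).le
  have c : IsChain (· ≤ ·) ((s ∪ insert x t : Finset α) : Set α) := by
    simp only [Finset.coe_union, Finset.coe_insert]
    rintro y (hy | hy) z (hz | hz) n
    · exact hs.1 hy hz n
    · exact .inl ((hs.2 y hy).le.trans (t1 z (by simpa using hz)))
    · exact .inr ((hs.2 z hz).le.trans (t1 y (by simpa using hy)))
    · rcases hy with rfl | hy <;> rcases hz with rfl | hz
      exacts [.inl le_rfl, .inl (ht.2 z hz).le, .inr (ht.2 y hy).le, (ht.1 hy hz n).symm]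
  have d : Disjoint s (insert x t) := Finset.disjoint_left.2 fun y h1 h2 => (hs.2 y h1).not_ge (t1 y h2)
  have e : (s ∪ insert x t).card = s.card + t.card + 1 := by
    rw [Finset.card_union_of_disjoint d, Finset.card_insert_of_notMem (a := x) (s := t) fun e => (ht.2 x e).false]; rfl
  refine ⟨e ▸ Col.card hf c, fun h => ?_⟩
  have u : (s ∪ insert x t).image f = Finset.univ :=
    Finset.eq_univ_of_card _ (by simp only [Finset.card_image_of_injOn (Col.inj hf c), e, h, Fintype.card_fin])
  rw [Finset.image_union] at u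
  refine eq_compl_iff_isCompl.2 ⟨Finset.disjoint_left.2 fun j h1 h2 => ?_, codisjoint_iff.2 u⟩
  obtain ⟨y, y1, rfl⟩ := Finset.mem_image.1 h1
  obtain ⟨z, z1, z2⟩ := Finset.mem_image.1 h2
  exact hf y z ((hs.2 y y1).trans_le (t1 z z1)) z2.symm

theorem col_fin (hQ : (Col k α).Countable) : (Col k α).Finite := by
  rcases (Col k α).eq_empty_or_nonempty with e | ⟨f0, h0⟩
  · simp [e]
  choose s s1 s2 using fun x => (lo_spec h0 x).1
  choose t t1 t2 using fun x : α => show ∃ t : Finset α, Lw (α := αᵒᵈ) x t ∧ t.card = hi x from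
    (lo_spec (α := αᵒᵈ) (Col.dual h0) x).1
  have sum : ∀ x : α, lo x + hi x + 1 ≤ k := fun x => by have := (glue h0 (s1 x) (t1 x)).1; rwa [s2, t2] at this
  have l1 : ∀ x y : α, x < y → lo x < lo y ∧ hi y < hi x := fun x y l => ⟨lo_lt h0 l, lo_lt (α := αᵒᵈ) (Col.dual h0) l⟩
  have F1 : {x : α | lo x + hi x + 1 ≠ k}.Finite := by
    refine ((finite_lt_nat k).biUnion fun j _ => uncount hQ (I := {x : α | lo x + hi x + 1 ≠ k ∧ lo x = j})
      (fun x v => (v x : ℕ) ≠ lo x) fun S hS => ?_).subset fun x hx => by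
        have := sum x
        exact mem_biUnion (x := lo x) (show lo x < k by omega) ⟨hx, rfl⟩
    refine ⟨fun x => ⟨if ∃ y ∈ S, y ≤ x then k - 1 - hi x else lo x, by have := sum x; split_ifs <;> omega⟩,
      fun x y l e => ?_, fun x hx => ?_⟩
    · have := l1 x y l; have := sum x; have := sum y
      simp only [Fin.mk.injEq] at e
      split_ifs at e with e1 e2 e2
      · omega
      · exact e2 (e1.imp fun z h => ⟨h.1, h.2.trans l.le⟩)
      all_goals omega
    · have := sum x; have := hx.1
      dsimp only; split_ifs with e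
      · obtain ⟨y, y1, y2⟩ := e
        refine iff_of_true (by omega) (y2.eq_or_lt.elim (· ▸ y1) fun l => ?_)
        have := l1 _ _ l; have := (hS y1).2; have := hx.2; omega
      · exact iff_of_false (by simp) fun h => e ⟨x, h, le_rfl⟩
  let V : ℕ → α → Prop := fun i x => lo x + hi x + 1 = k ∧ (lo x = i ∨ lo x = i + 1)
  let r : ℕ → α → α → Prop := fun i x y => V i x ∧ V i y ∧ x < y
  have F2 : ∀ i, i + 1 < k → (Quot.mk (r i) '' {x | V i x}).Finite := fun i hi' => by
    refine uncount hQ (fun c v => ∃ x, V i x ∧ Quot.mk (r i) x = c ∧ (v x : ℕ) ≠ lo x) fun S hS => ?_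
    refine ⟨fun x => ⟨if V i x ∧ Quot.mk (r i) x ∈ S then 2 * i + 1 - lo x else
      if hi x + i + 2 ≤ k then k - 1 - hi x else lo x, ?_⟩, fun x y l e => ?_, ?_⟩
    · have := sum x
      split_ifs with e
      · have := e.1.2; omega
      all_goals omega
    · have := l1 x y l; have := sum x; have := sum y
      have q : V i x → V i y → Quot.mk (r i) x = Quot.mk (r i) y := fun a b => Quot.sound ⟨a, b, l⟩
      simp only [Fin.mk.injEq] at e
      by_cases a : V i x ∧ Quot.mk (r i) x ∈ S <;> by_cases b : V i y ∧ Quot.mk (r i) y ∈ S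
      · rw [if_pos a, if_pos b] at e
        have := a.1.2; have := b.1.2; omega
      · rw [if_pos a, if_neg b] at e
        have := a.1.1; have := a.1.2
        have c : V i y := by constructor <;> split_ifs at e <;> omega
        exact b ⟨c, q a.1 c ▸ a.2⟩
      · rw [if_neg a, if_pos b] at e
        have := b.1.1; have := b.1.2
        have c : V i x := by constructor <;> split_ifs at e <;> omega
        exact a ⟨c, q c b.1 ▸ b.2⟩
      · rw [if_neg a, if_neg b] at e
        split_ifs at e <;> omega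
    · rintro _ ⟨x, hx, rfl⟩
      refine ⟨fun ⟨y, y1, y2, y3⟩ => by_contra fun n => y3 ?_, fun h => ⟨x, hx, rfl, ?_⟩⟩
      · have := y1.1
        dsimp only; rw [if_neg fun h => n (y2 ▸ h.2)]; split_ifs <;> omega
      · have := hx.2
        dsimp only; rw [if_pos ⟨hx, h⟩]; omega
  let Φ : (α → Fin k) → ℕ → α → Finset (Fin k) := fun f i x =>
    if lo x = i then (insert x (s x)).image f else (s x).image f
  have P : ∀ f ∈ Col k α, ∀ i x, Φ f i (Quot.mk (r i) x).out = Φ f i x := fun f hf i x => by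
    have h : ∀ x y, r i x y → Φ f i x = Φ f i y := fun x y ⟨a, b, l⟩ => by
      have := l1 x y l; have := a.2; have := b.2; have := b.1
      simp only [Φ]
      rw [if_pos (by omega), if_neg (by omega), (glue hf ((s1 x).ins l).1 (t1 y)).2 (by
        rw [((s1 x).ins l).2, s2, t2]; omega), (glue hf (s1 y) (t1 y)).2 (by rw [s2, t2]; exact b.1)]
    exact congrArg (Quot.lift (Φ f i) h) (Quot.out_eq (Quot.mk (r i) x))
  let W : Set α := ⋃ i ∈ {i | i + 1 < k}, Quot.out '' (Quot.mk (r i) '' {x | V i x})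
  have hW : W.Finite := ((finite_lt_nat k).subset fun i (h : i + 1 < k) => (by omega : i < k)).biUnion
    fun i h => (F2 i h).image _
  refine fin_of_det (F1.union (hW.biUnion fun w _ => (insert w (s w)).finite_toSet)) fun f hf g hg e => ?_
  have Q : ∀ i x, i + 1 < k → V i x → Φ f i x = Φ g i x := fun i x h1 h2 => by
    rw [← P f hf, ← P g hg]
    have m : (Quot.mk (r i) x).out ∈ W := mem_biUnion h1 ⟨_, ⟨x, h2, rfl⟩, rfl⟩
    generalize (Quot.mk (r i) x).out = w at m
    have : EqOn f g (insert w (s w) : Finset α) := e.mono fun y hy => .inr (mem_biUnion m hy)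
    simp only [Φ]; split_ifs
    exacts [Finset.image_congr this, Finset.image_congr (this.mono (by simp))]
  funext x
  by_cases c : lo x + hi x + 1 = k
  swap
  · exact e (.inl c)
  have a1 : (s x).image f = (s x).image g := by
    rcases hx : lo x with _ | i
    · simp [Finset.card_eq_zero.1 ((s2 x).trans hx)]
    · simpa [Φ, hx] using Q i x (by omega) ⟨c, .inr hx⟩
  have a2 : (insert x (s x)).image f = (insert x (s x)).image g := by
    by_cases hx : lo x + 1 < k
    · simpa [Φ] using Q _ x hx ⟨c, .inl rfl⟩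
    · have : ∀ f ∈ Col k α, (insert x (s x)).image f = Finset.univ := fun f hf => Finset.eq_univ_of_card _ (by
        rw [Finset.card_image_of_injOn (Col.inj hf (by simpa using (s1 x).1.insert fun z hz _ => .inr ((s1 x).2 z hz).le)),
          Finset.card_insert_of_notMem fun e => ((s1 x).2 x e).false, s2, Fintype.card_fin]; omega)
      rw [this f hf, this g hg]
  have : f x ∈ insert (g x) ((s x).image g) := by rw [← Finset.image_insert, ← a2]; simp
  refine (Finset.mem_insert.1 this).resolve_right fun h => ?_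
  obtain ⟨y, y1, y2⟩ := Finset.mem_image.1 (a1 ▸ h)
  exact hf y x ((s1 x).2 y y1) y2

end Pool.Agent.H.MP_233b81_lc
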