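import Pool.Agent.H.MP_233b81_lc.Dil

namespace Pool.Agent.H.MP_233b81_lc
open Function Set Classical

variable {α : Type} [PartialOrder α] {k : ℕ}

def Ch (k : ℕ) (α : Type) [PartialOrder α] : Set (α → Fin k) := {f | ∀ x y, f x = f y → x ≤ y ∨ y ≤ x}

theorem ch_inj {f : α → Fin k} (hf : f ∈ Ch k α) {t : Set α} (h : IsAntichain (· ≤ ·) t) : InjOn f t :=
  fun x hx y hy e => (hf x y e).elim (h.eq hx hy) fun l => (h.eq hy hx l).symm

def An (f : α → Fin k) (M : Fin k → α) : Prop := (∀ i, f (M i) = i) ∧ ∀ i j, M i ≤ M j → i = j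

variable {f : α → Fin k}

theorem loose (hQ : (Ch k α).Countable) (hf : f ∈ Ch k α) : {x | ¬ ∃ M, An f M ∧ M (f x) = x}.Finite := by
  refine (finite_iUnion fun j : Fin k => (?_ : {x | (¬ ∃ M, An f M ∧ M (f x) = x) ∧ f x = j}.Finite)).subset
    fun x hx => mem_iUnion.2 ⟨f x, hx, rfl⟩
  set C := {x | (¬ ∃ M, An f M ∧ M (f x) = x) ∧ f x = j}
  let π : α ⊕ C → α := Sum.elim id Subtype.val
  let _ : PartialOrder (α ⊕ C) :=
    { le := fun p q => p = q ∨ π p < π q
      lt := fun p q => π p < π q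
      lt_iff_le_not_ge := fun p q => ⟨fun h => ⟨.inr h, by rintro (rfl | e); exacts [h.false, h.asymm e]⟩,
        fun h => h.1.resolve_left fun e => h.2 (.inl e.symm)⟩
      le_refl := fun _ => .inl rfl
      le_trans := by rintro p q r (rfl | a) (rfl | b); exacts [.inl rfl, .inr b, .inr a, .inr (a.trans b)]
      le_antisymm := by rintro p q (rfl | a) (b | b); exacts [rfl, rfl, b.symm, (a.asymm b).elim] }
  have card : ∀ t : Finset α, IsAntichain (· ≤ ·) (t : Set α) → t.card ≤ k := fun t h => by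
    simpa [Finset.card_image_of_injOn (ch_inj hf h)] using (t.image f).card_le_univ
  obtain ⟨g, g1⟩ := dil (f ∘ π) fun t h => by
    have h1 : IsAntichain (· ≤ ·) (t.image π : Set α) := by
      simp only [Finset.coe_image]
      rintro _ ⟨p, hp, rfl⟩ _ ⟨q, hq, rfl⟩ n e
      exact h hp hq (fun e => n (congrArg π e)) (.inr (e.lt_of_ne n))
    have h2 := card _ h1
    by_cases c : InjOn π t
    · rwa [Finset.card_image_of_injOn c] at h2
    obtain ⟨x, x1, x2⟩ : ∃ x : C, .inl x.1 ∈ t ∧ .inr x ∈ t := by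
      simp only [InjOn, not_forall] at c
      obtain ⟨p | p, hp, q | q, hq, e, n⟩ := c
      · exact (n (congrArg _ e)).elim
      · exact ⟨q, (show p = q from e) ▸ hp, hq⟩
      · exact ⟨p, (show q = p from e.symm) ▸ hq, hp⟩
      · exact (n (congrArg _ (Subtype.ext e))).elim
    have h3 : InjOn π (t.erase (.inr x)) := by
      have : ∀ y : C, .inr y ∈ t.erase (.inr x) → False := fun y hy => by
        rw [Finset.mem_erase] at hy
        exact hy.1 (congrArg _ (Subtype.ext (ch_inj hf h1 (Finset.mem_image_of_mem π hy.2)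
          (Finset.mem_image_of_mem π x2) (y.2.2.trans x.2.2.symm))))
      rintro (p | p) hp (q | q) hq e
      exacts [congrArg _ e, (this _ hq).elim, (this _ hp).elim, (this _ hp).elim]
    have h4 := Finset.card_le_card (Finset.image_subset_image (f := π) (t.erase_subset (.inr x)))
    rw [Finset.card_image_of_injOn h3, Finset.card_erase_of_mem x2] at h4
    by_contra n
    have u : (t.image π).image f = Finset.univ :=
      Finset.eq_univ_of_card _ (by rw [Finset.card_image_of_injOn (ch_inj hf h1), Fintype.card_fin]; omega)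
    choose M m1 m2 using fun i => Finset.mem_image.1 (u ▸ Finset.mem_univ i : i ∈ (t.image π).image f)
    exact x.2.1 ⟨M, ⟨m2, fun i j e => by rw [← m2 i, h1.eq (m1 i) (m1 j) e, m2]⟩,
      ch_inj hf h1 (m1 _) (Finset.mem_image_of_mem π x2) (m2 _)⟩
  refine uncount hQ (fun x v => ∃ h : x ∈ C, v x = g (.inr ⟨x, h⟩)) fun S hS => ?_
  let ρ : α → α ⊕ C := fun x => if h : x ∈ S then .inr ⟨x, hS h⟩ else .inl x
  have r : ∀ x, π (ρ x) = x := fun x => by simp only [ρ]; split_ifs <;> rfl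
  have le : ∀ x y, ρ x = ρ y ∨ π (ρ x) < π (ρ y) → x ≤ y := fun x y h => by
    rw [← r x, ← r y]; exact h.elim (fun e => (congrArg π e).le) le_of_lt
  refine ⟨g ∘ ρ, fun x y e => (g1 _ _ e).imp (le _ _) (le _ _), fun x hx => ⟨fun ⟨_, h⟩ => by_contra fun n => ?_,
    fun h => ⟨hx, by simp [ρ, h]⟩⟩⟩
  simp only [comp, ρ, dif_neg n] at h
  rcases g1 _ _ h with (e | e) | e | e
  exacts [Sum.inl_ne_inr e, e.false, Sum.inr_ne_inl e, e.false]

theorem mix (hf : f ∈ Ch k α) {u w} (hu : u ∈ Ch k α) (hw : w ∈ Ch k α) {M} (hM : An f M) :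
    ∃ v ∈ Ch k α, ∃ σ : Fin k → Fin k, Injective σ ∧ (∀ x, x ≤ M (f x) → v x = u x) ∧ ∀ x, M (f x) ≤ x → v x = σ (w x) := by
  have inj : ∀ u ∈ Ch k α, Injective (u ∘ M) := fun u hu i j e => (hu _ _ e).elim (hM.2 _ _) fun l => (hM.2 _ _ l).symm
  let e := Equiv.ofBijective _ (Finite.injective_iff_bijective.1 (inj w hw))
  have he : ∀ j, e.symm (w (M j)) = j := e.symm_apply_apply
  have hs : Injective (u ∘ M ∘ e.symm) := (inj u hu).comp e.symm.injective
  have key : ∀ x y, x ≤ M (f x) → ¬ y ≤ M (f y) → u x = u (M (e.symm (w y))) → x ≤ y := fun x y a b h => by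
    have b := (hf y (M (f y)) (hM.1 _).symm).resolve_left b
    have h1 : w (M (e.symm (w y))) = w y := e.apply_symm_apply _
    generalize e.symm (w y) = j at h h1
    exact ((hu _ _ h).elim id fun l => hM.2 _ _ (l.trans a) ▸ a).trans
      ((hw _ _ h1).elim id fun l => hM.2 _ _ (b.trans l) ▸ b)
  refine ⟨fun x => if x ≤ M (f x) then u x else u (M (e.symm (w x))), fun x y => ?_, _, hs, fun x h => if_pos h,
    fun x h => ?_⟩
  · dsimp only; split_ifs with a b b
    exacts [hu x y, fun h => .inl (key x y a b h), fun h => .inr (key y x b a h.symm), fun h => hw x y (hs h)]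
  · dsimp only [comp]; split_ifs with a
    · have := he (f x); rw [h.antisymm a] at this; rw [this, h.antisymm a]
    · rfl

def Seg (f : α → Fin k) (M N : Fin k → α) : Set α := {x | M (f x) ≤ x ∧ x ≤ N (f x)}

def Det (k : ℕ) (I : Set α) : Prop := ∃ W : Set α, W.Finite ∧ ∀ u ∈ Ch k α, ∀ w ∈ Ch k α, EqOn u w W → EqOn u w I

def St (f : α → Fin k) := {p : (Fin k → α) × (Fin k → α) // An f p.1 ∧ An f p.2 ∧ p.1 ≤ p.2 ∧ ¬ Det k (Seg f p.1 p.2)}

theorem an_max (hf : f ∈ Ch k α) {M N} (hM : An f M) (hN : An f N) :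
    An f (fun i => if M i ≤ N i then N i else M i) ∧ An f fun i => if M i ≤ N i then M i else N i := by
  have c : ∀ i, ¬ M i ≤ N i → N i ≤ M i := fun i => (hf _ _ ((hM.1 i).trans (hN.1 i).symm)).resolve_left
  refine ⟨⟨fun i => ?_, fun i j => ?_⟩, fun i => ?_, fun i j => ?_⟩ <;> dsimp only
  · split_ifs; exacts [hN.1 i, hM.1 i]
  · split_ifs with a b b
    exacts [hN.2 i j, fun l => hM.2 i j (a.trans l), fun l => hN.2 i j ((c i a).trans l), hM.2 i j]
  · split_ifs; exacts [hM.1 i, hN.1 i]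
  · split_ifs with a b b
    exacts [hM.2 i j, fun l => hM.2 i j (l.trans (c j b)), fun l => hN.2 i j (l.trans b), hN.2 i j]

theorem step (hQ : (Ch k α).Countable) (hf : f ∈ Ch k α) (s : St f) : ∃ (t : St f) (P P' : Fin k → α) (a b : α),
    s.1.1 ≤ t.1.1 ∧ t.1.2 ≤ s.1.2 ∧ An f P ∧ An f P' ∧ s.1.1 ≤ P ∧ P ≤ P' ∧ P' ≤ s.1.2 ∧ (P' ≤ t.1.1 ∨ t.1.2 ≤ P) ∧
    a ∈ Seg f P P' ∧ b ∈ Seg f P P' ∧ (∃ u ∈ Ch k α, u a = u b) ∧ ∃ u ∈ Ch k α, u a ≠ u b := by
  obtain ⟨⟨M, N⟩, hM, hN, le, h⟩ := s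
  have h' := h
  simp only [Det, not_exists, not_and, not_forall] at h'
  obtain ⟨u, hu, w, hw, e, ne⟩ := h' _ (((finite_range M).union (finite_range N)).union (loose hQ hf))
  simp only [EqOn, not_forall] at ne
  obtain ⟨x, hx, ne⟩ := ne
  obtain ⟨A, hA, ax⟩ : ∃ M, An f M ∧ M (f x) = x := by_contra fun n => ne (e (.inr n))
  obtain ⟨B, hB, b1, b2, bx⟩ : ∃ B, An f B ∧ M ≤ B ∧ B ≤ N ∧ B (f x) = x := by
    have h1 := (an_max hf hM hA).1
    refine ⟨_, (an_max hf h1 hN).2, fun i => ?_, fun i => ?_, ?_⟩ <;> dsimp only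
    · split_ifs with a b b
      exacts [a, le i, le_rfl, le i]
    · split_ifs with a b b
      exacts [b, le_rfl, b, le_rfl]
    · simp only [ax, hx.1, hx.2, if_true]
  have two : ∀ C, An f C → range C ⊆ range M ∪ range N → ∃ j, (∃ u ∈ Ch k α, u (C j) = u x) ∧ ∃ u ∈ Ch k α, u (C j) ≠ u x :=
    fun C hC s => by
      obtain ⟨j, hj⟩ := Finite.injective_iff_surjective.1 (show Injective (u ∘ C) from fun i j e =>
        (hu _ _ e).elim (hC.2 _ _) fun l => (hC.2 _ _ l).symm) (u x)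
      exact ⟨j, ⟨u, hu, hj⟩, w, hw, fun q => ne (hj.symm.trans ((e (.inl (s ⟨j, rfl⟩))).trans q))⟩
  by_cases c : Det k (Seg f M B)
  · obtain ⟨j, j1, j2⟩ := two M hM subset_union_left
    refine ⟨⟨(B, N), hB, hN, b2, fun ⟨W, w1, w2⟩ => ?_⟩, M, B, M j, x, b1, le_rfl, hM, hB, le_rfl, b1, b2, .inl le_rfl,
      ⟨by rw [hM.1], by rw [hM.1]; exact b1 j⟩, ⟨hx.1, bx.ge⟩, j1, j2⟩
    obtain ⟨W', c1, c2⟩ := c
    refine h ⟨W ∪ W', w1.union c1, fun u hu w hw e y hy => ?_⟩
    exact (hf y (B (f y)) (hB.1 _).symm).elim (fun l => c2 u hu w hw (e.mono subset_union_right) ⟨hy.1, l⟩)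
      fun l => w2 u hu w hw (e.mono subset_union_left) ⟨l, hy.2⟩
  · obtain ⟨j, j1, j2⟩ := two N hN subset_union_right
    exact ⟨⟨(M, B), hM, hB, b1, c⟩, B, N, N j, x, le_rfl, b2, hB, hN, b1, b2, le_rfl, .inr le_rfl,
      ⟨by rw [hN.1]; exact b2 j, by rw [hN.1]⟩, ⟨bx.le, hx.2⟩, j1, j2⟩

theorem no_state (hQ : (Ch k α).Countable) (hf : f ∈ Ch k α) (s : St f) : False := by
  choose t P P' a b h1 h2 h3 h4 h5 h6 h7 h8 h9 h10 h11 h12 using step hQ hf
  have mono : ∀ m n, (t^[n] s).1.1 ≤ (t^[n + m] s).1.1 ∧ (t^[n + m] s).1.2 ≤ (t^[n] s).1.2 := fun m n => by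
    induction m with
    | zero => exact ⟨le_rfl, le_rfl⟩
    | succ m ih => rw [← add_assoc, iterate_succ_apply']; exact ⟨ih.1.trans (h1 _), (h2 _).trans ih.2⟩
  have dj : ∀ m n, m ≠ n → P' (t^[m] s) ≤ P (t^[n] s) ∨ P' (t^[n] s) ≤ P (t^[m] s) := fun m n ne => by
    wlog l : m < n generalizing m n
    · exact (this n m ne.symm (by omega)).symm
    have := mono (n - (m + 1)) (m + 1)
    rw [show m + 1 + (n - (m + 1)) = n by omega, iterate_succ_apply'] at this
    exact (h8 (t^[m] s)).imp (fun e => e.trans (this.1.trans (h5 _))) fun e => (h7 _).trans (this.2.trans e)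
  refine infinite_univ (uncount hQ (I := univ) (fun n v => v (a (t^[n] s)) = v (b (t^[n] s))) fun S _ => ?_)
  have fin : ∀ F : Finset ℕ, ∃ v ∈ Ch k α, ∀ n ∈ F, v (a (t^[n] s)) = v (b (t^[n] s)) ↔ n ∈ S := fun F => by
    induction F using Finset.induction with
    | empty => exact ⟨f, hf, by simp⟩
    | insert n F hn ih =>
      obtain ⟨u, hu, e⟩ := ih
      obtain ⟨w, hw, e'⟩ : ∃ w ∈ Ch k α, w (a (t^[n] s)) = w (b (t^[n] s)) ↔ n ∈ S := by
        by_cases c : n ∈ S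
        exacts [(h11 _).imp fun w h => ⟨h.1, iff_of_true h.2 c⟩, (h12 _).imp fun w h => ⟨h.1, iff_of_false h.2 c⟩]
      obtain ⟨v, hv, σ, s1, s2, s3⟩ := mix hf hu hw (h3 (t^[n] s))
      obtain ⟨v', hv', τ, t1, t2, t3⟩ := mix hf hv hu (h4 (t^[n] s))
      refine ⟨v', hv', Finset.forall_mem_insert _ _ _ |>.2 ⟨?_, fun m hm => ?_⟩⟩
      · rw [t2 _ (h9 _).2, t2 _ (h10 _).2, s3 _ (h9 _).1, s3 _ (h10 _).1, s1.eq_iff, e']
      · rcases dj m n (by rintro rfl; exact hn hm) with d | d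
        · have p := (h9 _).2.trans (d _)
          have q := (h10 _).2.trans (d _)
          rw [t2 _ (p.trans (h6 _ _)), t2 _ (q.trans (h6 _ _)), s2 _ p, s2 _ q, e m hm]
        · rw [t3 _ ((d _).trans (h9 _).1), t3 _ ((d _).trans (h10 _).1), t1.eq_iff, e m hm]
  obtain ⟨v, hv⟩ := compact (ι := α × α ⊕ ℕ) (k := k) (Sum.elim Prod.fst fun n => a (t^[n] s))
    (Sum.elim Prod.snd fun n => b (t^[n] s))
    (Sum.elim (fun p i j => i = j → p.1 ≤ p.2 ∨ p.2 ≤ p.1) fun n i j => i = j ↔ n ∈ S) fun F => by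
      obtain ⟨v, hv, e⟩ := fin F.toRight
      refine ⟨v, ?_⟩
      rintro (p | n) h
      exacts [hv _ _, e n (by simpa using h)]
  exact ⟨v, fun x y => hv (.inl (x, y)), fun n _ => hv (.inr n)⟩

def Ex (k : ℕ) (α : Type) := Fin k ⊕ α ⊕ Fin k

def exLe : Ex k α → Ex k α → Prop
  | .inl i, .inl j => i = j
  | .inl _, .inr _ => True
  | .inr _, .inl _ => False
  | .inr (.inl x), .inr (.inl y) => x ≤ y
  | .inr (.inl _), .inr (.inr _) => True
  | .inr (.inr _), .inr (.inl _) => False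
  | .inr (.inr i), .inr (.inr j) => i = j

instance : PartialOrder (Ex k α) where
  le := exLe
  le_refl := by rintro (_ | _ | _) <;> simp [exLe]
  le_trans := by
    rintro (_ | _ | _) (_ | _ | _) (_ | _ | _) <;> simp only [exLe, imp_self, imp_true_iff, false_imp_iff, true_imp_iff]
    exacts [Eq.trans, le_trans, Eq.trans]
  le_antisymm := by
    rintro (_ | _ | _) (_ | _ | _) <;> simp only [exLe, false_imp_iff, imp_true_iff]
    exacts [fun e _ => e ▸ rfl, fun a b => a.antisymm b ▸ rfl, fun e _ => e ▸ rfl]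

theorem ch_fin (hQ : (Ch k α).Countable) : (Ch k α).Finite := by
  rcases (Ch k α).eq_empty_or_nonempty with e | ⟨f, hf⟩
  · simp [e]
  have ex : ∀ f ∈ Ch k α, (Sum.elim id (Sum.elim f id) : Ex k α → Fin k) ∈ Ch k (Ex k α) := fun f hf => by
    rintro (_ | _ | _) (_ | _ | _) e
    exacts [.inl e, .inl trivial, .inl trivial, .inr trivial, hf _ _ e, .inl trivial, .inr trivial, .inr trivial, .inl e]
  have hQ' : (Ch k (Ex k α)).Countable := by
    refine (((countable_univ (α := Fin k → Fin k)).prod (hQ.prod (countable_univ (α := Fin k → Fin k)))).image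
      fun p => (Sum.elim p.1 (Sum.elim p.2.1 p.2.2) : Ex k α → Fin k)).mono fun g hg => ?_
    exact ⟨(g ∘ .inl, g ∘ .inr ∘ .inl, g ∘ .inr ∘ .inr), ⟨trivial, fun x y e => hg (.inr (.inl x)) (.inr (.inl y)) e,
      trivial⟩, by funext x; rcases x with _ | _ | _ <;> rfl⟩
  by_contra n
  refine no_state hQ' (ex f hf) ⟨(.inl, .inr ∘ .inr), ⟨fun _ => rfl, fun _ _ => id⟩, ⟨fun _ => rfl, fun _ _ => id⟩,
    fun _ => trivial, fun ⟨W, w1, w2⟩ => n ?_⟩
  refine fin_of_det (w1.preimage (f := fun x : α => (.inr (.inl x) : Ex k α)) fun x _ y _ e => by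
    simpa using e) fun u hu w hw e => funext fun x => w2 _ (ex u hu) _ (ex w hw) ?_ (x := .inr (.inl x)) ⟨trivial, trivial⟩
  rintro (_ | _ | _) h
  exacts [rfl, e h, rfl]

end Pool.Agent.H.MP_233b81_lc
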