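import Mathlib

namespace Pool.Agent.H.MP_233b81_lc
open Function Set Classical

theorem compact {α ι : Type} {k : ℕ} (a b : ι → α) (R : ι → Fin k → Fin k → Prop)
    (h : ∀ s : Finset ι, ∃ v : α → Fin k, ∀ i ∈ s, R i (v (a i)) (v (b i))) :
    ∃ v : α → Fin k, ∀ i, R i (v (a i)) (v (b i)) := by
  have c : ∀ i, IsClosed {v : α → Fin k | R i (v (a i)) (v (b i))} := fun i =>
    (isClosed_discrete {p : Fin k × Fin k | R i p.1 p.2}).preimage
      (f := fun v : α → Fin k => (v (a i), v (b i))) (by fun_prop)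
  obtain ⟨v, -, hv⟩ := isCompact_univ.inter_iInter_nonempty _ c fun s => by
    obtain ⟨v, hv⟩ := h s
    exact ⟨v, trivial, by simpa using hv⟩
  exact ⟨v, by simpa using hv⟩

theorem uncount {β ι : Type} {Q : Set β} (hQ : Q.Countable) {I : Set ι} (t : ι → β → Prop)
    (h : ∀ S ⊆ I, ∃ v ∈ Q, ∀ i ∈ I, t i v ↔ i ∈ S) : I.Finite := by
  by_contra hI
  have := Set.Infinite.to_subtype hI
  obtain ⟨e, he⟩ := countable_iff_exists_injOn.1 hQ
  choose φ h1 h2 using fun S : Set I => h (Subtype.val '' S) (by simp)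
  refine cantor_injective (fun S : Set I => Infinite.natEmbedding I (e (φ S))) fun S T hST => ?_
  have := he (h1 S) (h1 T) ((Infinite.natEmbedding I).injective hST)
  ext i
  have k := h2 S i i.2
  rw [this, h2 T i i.2] at k
  simpa using k.symm

theorem fin_of_det {α : Type} {k : ℕ} {Q : Set (α → Fin k)} {W : Set α} (hW : W.Finite)
    (h : ∀ f ∈ Q, ∀ g ∈ Q, EqOn f g W → f = g) : Q.Finite := by
  have := hW.to_subtype
  exact Finite.of_finite_image (f := W.domRestrict) (toFinite _) fun f hf g hg e =>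
    h f hf g hg (domRestrict_eq_domRestrict_iff.1 e)

theorem dil_fin {β : Type} [PartialOrder β] (s : Finset β) (k : ℕ)
    (h : ∀ t ⊆ s, IsAntichain (· ≤ ·) (t : Set β) → t.card ≤ k) :
    ∃ f : β → ℕ, (∀ x ∈ s, f x < k) ∧ ∀ x ∈ s, ∀ y ∈ s, f x = f y → x ≤ y ∨ y ≤ x := by
  induction s using Finset.strongInduction generalizing k with | H s ih => ?_
  rcases s.eq_empty_or_nonempty with rfl | ne
  · simp
  obtain ⟨a, ha⟩ := s.exists_maximal ne
  obtain ⟨k, rfl⟩ : ∃ j, k = j + 1 := ⟨k - 1, by have := h {a} (by simpa using ha.1) (by simp); simp at this; omega⟩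
  suffices ∃ K : Finset β, a ∈ K ∧ (∀ x ∈ K, ∀ y ∈ K, x ≤ y ∨ y ≤ x) ∧
      ∀ t ⊆ s \ K, IsAntichain (· ≤ ·) (t : Set β) → t.card ≤ k by
    obtain ⟨K, h1, h2, h3⟩ := this
    obtain ⟨f, f1, f2⟩ := ih (s \ K) ⟨Finset.sdiff_subset, fun e =>
      (Finset.mem_sdiff.1 (e ha.1)).2 h1⟩ k h3
    refine ⟨fun x => if x ∈ K then k else f x, fun x hx => ?_, fun x hx y hy => ?_⟩
    · dsimp only; split_ifs with e
      exacts [by omega, (f1 x (by simp [hx, e])).trans (by omega)]
    · dsimp only; split_ifs with e1 e2 e2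
      · exact fun _ => h2 x e1 y e2
      · exact fun e => absurd (f1 y (by simp [hy, e2])) (by omega)
      · exact fun e => absurd (f1 x (by simp [hx, e1])) (by omega)
      · exact f2 x (by simp [hx, e1]) y (by simp [hy, e2])
  obtain ⟨f, f1, f2⟩ := ih (s.erase a) (Finset.erase_ssubset ha.1) (k + 1) fun t ht =>
    h t (ht.trans (Finset.erase_subset ..))
  let A : Finset β → Prop := fun t => t ⊆ s.erase a ∧ IsAntichain (· ≤ ·) (t : Set β) ∧ t.card = k + 1
  have hit : ∀ t, A t → ∀ i < k + 1, ∃ y ∈ t, f y = i := fun t ht i hi => by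
    have : t.image f = Finset.range (k + 1) := Finset.eq_of_subset_of_card_le
      (fun j => by simp only [Finset.mem_image, Finset.mem_range]; rintro ⟨y, hy, rfl⟩; exact f1 y (ht.1 hy)) (by
        rw [Finset.card_image_of_injOn fun x hx y hy e => by_contra fun n =>
          (f2 x (ht.1 hx) y (ht.1 hy) e).elim (ht.2.1 hx hy n) (ht.2.1 hy hx (Ne.symm n))]
        simp [ht.2.2])
    exact Finset.mem_image.1 (this ▸ Finset.mem_range.2 hi)
  by_cases c : ∃ t, A t
  swap
  · refine ⟨{a}, by simp, by simp, fun t ht h1 => ?_⟩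
    rw [Finset.sdiff_singleton_eq_erase] at ht
    have := h t (ht.trans (Finset.erase_subset ..)) h1
    by_contra n
    exact c ⟨t, ht, h1, by omega⟩
  obtain ⟨t0, h0⟩ := c
  have ex : ∀ i, i < k + 1 → ∃ x, (∃ t, A t ∧ x ∈ t) ∧ f x = i ∧ ∀ t, A t → ∀ y ∈ t, f y = i → y ≤ x := fun i hi => by
    obtain ⟨y, y1, y2⟩ := hit t0 h0 i hi
    obtain ⟨x, hx⟩ := ((s.erase a).filter fun x => (∃ t, A t ∧ x ∈ t) ∧ f x = i).exists_maximal
      ⟨y, Finset.mem_filter.2 ⟨h0.1 y1, ⟨t0, h0, y1⟩, y2⟩⟩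
    have x1 := Finset.mem_filter.1 hx.1
    refine ⟨x, x1.2.1, x1.2.2, fun t ht z z1 z2 => ?_⟩
    exact (f2 z (ht.1 z1) x x1.1 (z2.trans x1.2.2.symm)).elim id
      (hx.2 (Finset.mem_filter.2 ⟨ht.1 z1, ⟨t, ht, z1⟩, z2⟩))
  have : Nonempty β := ⟨a⟩
  choose! x x1 x2 x3 using ex
  have xs : ∀ i < k + 1, x i ∈ s.erase a := fun i hi => let ⟨_, ht, m⟩ := x1 i hi; ht.1 m
  obtain ⟨i, hi, hia⟩ : ∃ i < k + 1, x i ≤ a := by
    by_contra n
    push Not at n
    have := h (insert a ((Finset.range (k + 1)).image x)) (fun y => by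
      simp only [Finset.mem_insert, Finset.mem_image, Finset.mem_range]
      rintro (rfl | ⟨i, hi, rfl⟩)
      exacts [ha.1, Finset.mem_of_mem_erase (xs i hi)]) (by
        simp only [Finset.coe_insert, Finset.coe_image, Finset.coe_range]
        rintro _ (rfl | ⟨i, hi, rfl⟩) _ (rfl | ⟨j, hj, rfl⟩) ne e
        · exact ne rfl
        · exact n j hj (ha.2 (Finset.mem_of_mem_erase (xs j hj)) e)
        · exact n i hi e
        · obtain ⟨t, ht, m⟩ := x1 j hj
          obtain ⟨y, y1, y2⟩ := hit t ht i hi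
          have := ht.2.1.eq y1 m ((x3 i hi t ht y y1 y2).trans e)
          exact ne (congrArg x (by rw [← y2, this, x2 j hj])))
    rw [Finset.card_insert_of_notMem, Finset.card_image_of_injOn fun i hi j hj e => by
      rw [← x2 i (by simpa using hi), e, x2 j (by simpa using hj)]] at this
    · simp at this
    · simp only [Finset.mem_image, Finset.mem_range]
      rintro ⟨j, hj, e⟩
      exact n j hj e.le
  refine ⟨insert a ((s.erase a).filter fun z => f z = i ∧ z ≤ x i), by simp, fun y hy z hz => ?_, fun t ht h1 => ?_⟩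
  · simp only [Finset.mem_insert, Finset.mem_filter] at hy hz
    rcases hy with rfl | hy <;> rcases hz with rfl | hz
    exacts [.inl le_rfl, .inr (hz.2.2.trans hia), .inl (hy.2.2.trans hia), f2 y hy.1 z hz.1 (hy.2.1.trans hz.2.1.symm)]
  · have := h t (ht.trans Finset.sdiff_subset) h1
    by_contra n
    have hA : A t := ⟨fun y hy => by have := ht hy; simp at this ⊢; tauto, h1, by omega⟩
    obtain ⟨y, y1, y2⟩ := hit t hA i hi
    exact (Finset.mem_sdiff.1 (ht y1)).2 (Finset.mem_insert_of_mem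
      (Finset.mem_filter.2 ⟨hA.1 y1, y2, x3 i hi t hA y y1 y2⟩))

theorem dil {β : Type} [PartialOrder β] {k : ℕ} (g : β → Fin k)
    (h : ∀ t : Finset β, IsAntichain (· ≤ ·) (t : Set β) → t.card ≤ k) :
    ∃ f : β → Fin k, ∀ x y, f x = f y → x ≤ y ∨ y ≤ x := by
  obtain ⟨v, hv⟩ := compact (ι := β × β) (k := k) Prod.fst Prod.snd (fun p i j => i = j → p.1 ≤ p.2 ∨ p.2 ≤ p.1)
    fun s => by
      obtain ⟨f, f1, f2⟩ := dil_fin (s.image Prod.fst ∪ s.image Prod.snd) k fun t _ => h t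
      refine ⟨fun x => if e : f x < k then ⟨f x, e⟩ else g x, fun p hp => ?_⟩
      have h1 : p.1 ∈ s.image Prod.fst ∪ s.image Prod.snd := Finset.mem_union_left _ (Finset.mem_image_of_mem _ hp)
      have h2 : p.2 ∈ s.image Prod.fst ∪ s.image Prod.snd := Finset.mem_union_right _ (Finset.mem_image_of_mem _ hp)
      simpa [f1 _ h1, f1 _ h2] using f2 _ h1 _ h2
  exact ⟨v, fun x y => hv (x, y)⟩

end Pool.Agent.H.MP_233b81_lc
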